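import Mathlib
import Pool.Agent.MooreExp.Main

set_option autoImplicit false

open Module

namespace Pool.Agent.Results.MP_fa5db2_co.NotMRD

universe u v

/-- The code `C_n(t_0,...,t_{k-1})`: the `F`-linear maps of `L` of the form
`x ↦ Σ a_i x^(q^(t_i))` with coefficients `a_i` in `L`, where `q = |F|`. -/
def code (F : Type u) (L : Type v) [Field F] [Fintype F] [Field L] [Algebra F L] {k : ℕ}
    (t : Fin k → ℕ) : Set (L →ₗ[F] L) :=
  {f | ∃ a : Fin k → L, ∀ x : L, f x = ∑ i, a i * x ^ (Fintype.card F ^ t i)}

/-- Minimum distance: the least rank of `f - g` over distinct `f, g` in the code. -/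
noncomputable def minDist {F : Type u} {L : Type v} [Field F] [Field L] [Algebra F L]
    (C : Set (L →ₗ[F] L)) : ℕ :=
  sInf {r | ∃ f ∈ C, ∃ g ∈ C, f ≠ g ∧ r = finrank F (LinearMap.range (f - g))}

/-- A code is MRD when `|C| = q^(n(n-d+1))`, where `q = |F|`, `n = [L : F]` and `d` is the
minimum distance. -/
def IsMRD {F : Type u} {L : Type v} [Field F] [Fintype F] [Field L] [Algebra F L]
    (C : Set (L →ₗ[F] L)) : Prop :=
  C.ncard = Fintype.card F ^ (finrank F L * (finrank F L - minDist C + 1))

/-- The exponents form an arithmetic progression of integers after reordering. -/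
def IsAP {k : ℕ} (t : Fin k → ℕ) : Prop :=
  ∃ (σ : Equiv.Perm (Fin k)) (a δ : ℤ), ∀ i : Fin k, (t (σ i) : ℤ) = a + (i : ℕ) * δ

section aux

variable {F : Type u} {L : Type v} [Field F] [Fintype F] [Field L] [Algebra F L]

/-- The map `x ↦ x^(q^s)` as a linear map. -/
noncomputable def frobPow (F : Type u) (L : Type v) [Field F] [Fintype F] [Field L] [Algebra F L]
    (s : ℕ) : L →ₗ[F] L :=
  ((FiniteField.frobeniusAlgHom F L) ^ s).toLinearMap

lemma frobPow_apply (s : ℕ) (x : L) : frobPow F L s x = x ^ (Fintype.card F ^ s) := by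
  unfold frobPow
  rw [AlgHom.toLinearMap_apply, AlgHom.coe_pow, FiniteField.coe_frobeniusAlgHom, pow_iterate]

/-- the linear map with coefficients `a` -/
noncomputable def lmap {k : ℕ} (t : Fin k → ℕ) (a : Fin k → L) : L →ₗ[F] L :=
  ∑ i, (LinearMap.mulLeft F (a i)).comp (frobPow F L (t i))

lemma lmap_apply {k : ℕ} (t : Fin k → ℕ) (a : Fin k → L) (x : L) :
    lmap (F := F) t a x = ∑ i, a i * x ^ (Fintype.card F ^ t i) := by
  unfold lmap
  rw [LinearMap.sum_apply]
  refine Finset.sum_congr rfl fun i _ => ?_
  rw [LinearMap.comp_apply, LinearMap.mulLeft_apply, frobPow_apply]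

lemma code_eq_range {k : ℕ} (t : Fin k → ℕ) :
    code F L t = Set.range (lmap (F := F) (L := L) t) := by
  ext f
  constructor
  · rintro ⟨a, ha⟩
    refine ⟨a, ?_⟩
    ext x
    rw [lmap_apply, ha]
  · rintro ⟨a, rfl⟩
    exact ⟨a, fun x => lmap_apply t a x⟩

/-- Different coefficient vectors give different maps when all exponents are below `[L : F]`. -/
lemma lmap_injective {k : ℕ} (t : Fin k → ℕ) (ht : Function.Injective t) [Finite L]
    (hn : ∀ i, t i < finrank F L) : Function.Injective (lmap (F := F) (L := L) t) := by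
  classical
  intro a b hab
  have : Fintype L := Fintype.ofFinite L
  have : FiniteDimensional F L := Module.Finite.of_finite
  have hq : 1 < Fintype.card F := Fintype.one_lt_card
  have hcard : Fintype.card L = Fintype.card F ^ finrank F L := Module.card_eq_pow_finrank
  set P : Polynomial L := ∑ i, Polynomial.C (a i - b i) *
    Polynomial.X ^ (Fintype.card F ^ t i) with hP
  have hdeg : P.natDegree < Fintype.card L := by
    have hpos : 0 < Fintype.card L := Fintype.card_pos
    by_cases hP0 : P = 0
    · rw [hP0, Polynomial.natDegree_zero]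
      exact hpos
    rw [Polynomial.natDegree_lt_iff_degree_lt hP0]
    rw [← Polynomial.mem_degreeLT]
    refine Submodule.sum_mem _ fun i _ => ?_
    rw [Polynomial.mem_degreeLT]
    refine (Polynomial.degree_C_mul_X_pow_le _ _).trans_lt ?_
    rw [hcard]
    exact_mod_cast Nat.pow_lt_pow_right hq (hn i)
  have hz : P = 0 := by
    refine Polynomial.eq_zero_of_natDegree_lt_card_of_eval_eq_zero P (f := fun x : L => x)
      Function.injective_id ?_ hdeg
    intro x
    have h1 : lmap (F := F) t a x = lmap (F := F) t b x := by rw [hab]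
    rw [lmap_apply, lmap_apply] at h1
    rw [hP, Polynomial.eval_finsetSum]
    simp only [Polynomial.eval_mul, Polynomial.eval_C, Polynomial.eval_pow, Polynomial.eval_X]
    have h2 : ∑ i, (a i - b i) * x ^ Fintype.card F ^ t i =
        ∑ i, a i * x ^ (Fintype.card F ^ t i) - ∑ i, b i * x ^ (Fintype.card F ^ t i) := by
      rw [← Finset.sum_sub_distrib]
      refine Finset.sum_congr rfl fun i _ => ?_
      ring
    rw [h2, h1, sub_self]
  funext i
  have h3 : P.coeff (Fintype.card F ^ t i) = a i - b i := by
    rw [hP, Polynomial.finsetSum_coeff, Finset.sum_eq_single i]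
    · rw [Polynomial.coeff_C_mul, Polynomial.coeff_X_pow, if_pos rfl, mul_one]
    · intro j _ hj
      rw [Polynomial.coeff_C_mul, Polynomial.coeff_X_pow, if_neg, mul_zero]
      intro h
      exact hj (ht (Nat.pow_right_injective hq h)).symm
    · simp
  rw [hz, Polynomial.coeff_zero] at h3
  exact (sub_eq_zero.1 h3.symm)

end aux

lemma not_ap_finset {k : ℕ} (t : Fin k → ℕ) (ht : Function.Injective t) (hap : ¬ IsAP t) :
    ¬ ∃ a d : ℕ, Finset.univ.image t =
      (Finset.range (Finset.univ.image t).card).image (fun i => a + i * d) := by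
  classical
  rintro ⟨a, d, h⟩
  have hk : (Finset.univ.image t).card = k := by
    rw [Finset.card_image_of_injective _ ht, Finset.card_univ, Fintype.card_fin]
  rw [hk] at h
  have hcard : ((Finset.range k).image (fun i => a + i * d)).card = (Finset.range k).card := by
    rw [← h, hk, Finset.card_range]
  have hinj := Finset.card_image_iff.1 hcard
  have hex : ∀ i : Fin k, ∃ j : Fin k, t j = a + (i : ℕ) * d := by
    intro i
    have h1 : a + (i : ℕ) * d ∈ (Finset.range k).image (fun i => a + i * d) :=
      Finset.mem_image_of_mem _ (Finset.mem_range.2 i.2)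
    rw [← h, Finset.mem_image] at h1
    obtain ⟨j, -, hj⟩ := h1
    exact ⟨j, hj⟩
  choose σ hσ using hex
  have hσinj : Function.Injective σ := by
    intro i j hij
    have h1 : a + (i : ℕ) * d = a + (j : ℕ) * d := by rw [← hσ, ← hσ, hij]
    have := hinj (Finset.mem_coe.2 (Finset.mem_range.2 i.2))
      (Finset.mem_coe.2 (Finset.mem_range.2 j.2)) h1
    exact Fin.ext this
  apply hap
  refine ⟨Equiv.ofBijective σ (Finite.injective_iff_bijective.1 hσinj), a, d, fun i => ?_⟩
  rw [Equiv.ofBijective_apply, hσ]
  push_cast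
  ring

/-- Let `F` be a finite field with `q` elements and let `t_0,...,t_{k-1}` be distinct
non-negative integers which do not form an arithmetic progression. Then there is `c` such that
for every `n > c` and every extension `L` of `F` of degree `n` the code `C_n(t_0,...,t_{k-1})` is not MRD. -/
theorem result (F : Type u) [Field F] [Fintype F] (k : ℕ) (t : Fin k → ℕ)
    (ht : Function.Injective t) (hap : ¬ IsAP t) :
    ∃ c : ℕ, ∀ n : ℕ, c < n → ∀ (L : Type v) [Field L] [Algebra F L], finrank F L = n →
      ¬ IsMRD (code F L t) := by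
  classical
  obtain ⟨p, hchar⟩ := CharP.exists F
  obtain ⟨e, hp, hFcard⟩ := FiniteField.card F p
  have hpf : Fact p.Prime := ⟨hp⟩
  have he : 0 < (e : ℕ) := e.2
  obtain ⟨c, hc⟩ := Pool.Agent.MooreExp.main p e he (Finset.univ.image t)
    (not_ap_finset t ht hap)
  have hk : (Finset.univ.image t).card = k := by
    rw [Finset.card_image_of_injective _ ht, Finset.card_univ, Fintype.card_fin]
  rw [hk] at hc
  refine ⟨c + ∑ i, t i, ?_⟩
  intro n hn L _ _ hfin hMRD
  have htn : ∀ i, t i < finrank F L := by
    intro i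
    have := Finset.single_le_sum (f := t) (fun j _ => Nat.zero_le _) (Finset.mem_univ i)
    omega
  have hn0 : 0 < n := by omega
  have hfd : FiniteDimensional F L := FiniteDimensional.of_finrank_pos (by omega)
  have hfinL : Finite L := Module.finite_of_finite F
  have : Fintype L := Fintype.ofFinite L
  have hcardL : Fintype.card L = Fintype.card F ^ n := by
    rw [← hfin]; exact Module.card_eq_pow_finrank
  obtain ⟨a, ⟨i0, hi0, hai0⟩, ha⟩ := hc n (by omega)
  have hen : (e : ℕ) * n ≠ 0 := Nat.mul_ne_zero (by omega) (by omega)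
  have : Fintype (GaloisField p (e * n)) := Fintype.ofFinite _
  have hcardG : Fintype.card (GaloisField p (e * n)) = Fintype.card L := by
    rw [hcardL, hFcard, ← pow_mul, ← GaloisField.card p _ hen, Nat.card_eq_fintype_card]
  let φ : GaloisField p (e * n) ≃+* L := FiniteField.ringEquivOfCardEq hcardG
  set a' : Fin k → L := fun i => φ (a (t i)) with ha'
  set f := lmap (F := F) t a' with hf
  have hinj := lmap_injective (F := F) (L := L) t ht htn
  have hf0 : f ≠ 0 := by
    intro h0
    obtain ⟨i1, -, hi1⟩ := Finset.mem_image.1 hi0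
    have h1 : a' = 0 := by
      apply hinj
      rw [← hf, h0]
      ext x
      rw [lmap_apply]
      simp
    have h2 : φ (a (t i1)) = 0 := congrFun h1 i1
    rw [map_eq_zero_iff φ φ.injective, hi1] at h2
    exact hai0 h2
  -- the kernel
  have hker : Nat.card (LinearMap.ker f) =
      Nat.card {x : GaloisField p (e * n) //
        ∑ i ∈ Finset.univ.image t, a i * x ^ ((p ^ (e : ℕ)) ^ i) = 0} := by
    symm
    refine Nat.card_congr (Equiv.subtypeEquiv φ.toEquiv ?_)
    intro x
    rw [Finset.sum_image (fun i _ j _ h => ht h)]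
    change _ ↔ φ x ∈ LinearMap.ker f
    rw [LinearMap.mem_ker, hf, lmap_apply]
    have h3 : ∑ i, a' i * (φ x) ^ (Fintype.card F ^ t i) =
        φ (∑ i, a (t i) * x ^ ((p ^ (e : ℕ)) ^ t i)) := by
      rw [map_sum]
      refine Finset.sum_congr rfl fun i _ => ?_
      rw [map_mul, map_pow, hFcard]
    rw [h3, map_eq_zero_iff φ φ.injective]
  have hkercard : Nat.card (LinearMap.ker f) = Fintype.card F ^ finrank F (LinearMap.ker f) := by
    rw [Nat.card_eq_fintype_card]
    exact Module.card_eq_pow_finrank
  have hq : 1 < Fintype.card F := Fintype.one_lt_card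
  have hkdim : k ≤ finrank F (LinearMap.ker f) := by
    rw [← hker, hkercard, ← hFcard] at ha
    have := (Nat.pow_lt_pow_iff_right hq).1 ha
    omega
  have hrn := LinearMap.finrank_range_add_finrank_ker f
  rw [hfin] at hrn
  -- the minimum distance
  have hmem : ∀ b : Fin k → L, lmap (F := F) t b ∈ code F L t := by
    intro b
    rw [code_eq_range]
    exact ⟨b, rfl⟩
  have hzero : (0 : L →ₗ[F] L) ∈ code F L t := by
    refine ⟨0, fun x => ?_⟩
    simp
  have hd : minDist (code F L t) ≤ n - k := by
    have h4 : minDist (code F L t) ≤ finrank F (LinearMap.range (f - 0)) :=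
      Nat.sInf_le ⟨f, hmem a', 0, hzero, hf0, rfl⟩
    rw [sub_zero] at h4
    omega
  have hcode : (code F L t).ncard = Fintype.card F ^ (n * k) := by
    rw [code_eq_range, Set.ncard_range_of_injective hinj]
    rw [Nat.card_eq_fintype_card, Fintype.card_fun, Fintype.card_fin, hcardL, ← pow_mul]
  unfold IsMRD at hMRD
  rw [hcode, hfin] at hMRD
  have h5 := Nat.pow_right_injective hq hMRD
  have h6 := Nat.eq_of_mul_eq_mul_left hn0 h5
  omega

end Pool.Agent.Results.MP_fa5db2_co.NotMRD
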